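import Pool.Agent.Results.MP_7161a7_co.MatchingThrackle

/-!
# A maximal thrackle without isolated vertices and with edge-vertex ratio one half
-/

set_option autoImplicit false

namespace Pool.Agent.Results.MP_2f2fa8_co.RatioHalf

open TH482.HT Pool.Agent.V11120.MTh

/-- The edge-vertex ratio of a drawn graph. -/
noncomputable def ratio {V : Type} {G : SimpleGraph V} (_ : Drawing G) : ℚ :=
  (G.edgeSet.ncard : ℚ) / (Nat.card V : ℚ)

/-- **There is a maximal thrackle without isolated vertices, with more than one edge, whose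
edge-vertex ratio is one half (so less than 4/5).** -/
theorem result : ∃ (V : Type) (_ : Finite V) (G : SimpleGraph V) (𝒟 : Drawing G),
    IsMaximalThrackle 𝒟 ∧ (∀ v, ∃ w, G.Adj v w) ∧ 1 < G.edgeSet.ncard ∧ ratio 𝒟 = 1 / 2 := by
  have h9 := Pool.Agent.Results.MP_7161a7_co.MatchingThrackle.edges9
  refine ⟨Fin 18, inferInstance, G9, D9, ⟨plane9, thrackle9, maximal9⟩,
    fun v => ⟨par9 v, (Pool.Agent.Results.MP_7161a7_co.MatchingThrackle.match9 v).1⟩, ?_, ?_⟩
  · rw [h9]
    norm_num
  · unfold ratio
    rw [h9, Nat.card_eq_fintype_card, Fintype.card_fin]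
    norm_num

end Pool.Agent.Results.MP_2f2fa8_co.RatioHalf
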